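import Mathlib
import Pool.Agent.Lib.MP_c9c291_lc.Defs
import Pool.Agent.Lib.MP_c9c291_lc.Defs2
import Pool.Agent.Lib.MP_c9c291_lc.AnyB

set_option autoImplicit false

open Pool.Agent.Lib.MP_c9c291_lc

namespace Pool.Agent.Results.MP_c9c291_lc.NotClosedBoth

/-- Every language `K` lies in a family that is `{agsm⁻¹}`-principal and `C`-principal but is not
closed under `T`, for both readings of the tail language `B`. -/
theorem result :
    ∀ (Z : Type) [Finite Z] (K : Language Z),
      ∃ F : Family, F Z K ∧ IsAgsmPrincipal F ∧ IsCPrincipal F ∧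
        ∃ (X : Type) (_ : Finite X) (M : Language X),
          F X M ∧ [] ∉ M ∧ ∀ B : Language (X ⊕ Fin 3), B = langB X ∨ B = langBp X →
            ¬ F (X ⊕ Fin 3) (transTB B M) := by
  intro Z _ K
  obtain ⟨F, h1, h2, h3, M, h4, h5, h6⟩ := mainB Z K
  refine ⟨F, h1, h2, h3, Bool, inferInstance, M, h4, h5, fun B hB => h6 B ?_⟩
  rcases hB with rfl | rfl
  · exact adm_langB
  · exact adm_langBp

end Pool.Agent.Results.MP_c9c291_lc.NotClosedBoth
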